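import Mathlib

/-!
# Canonical join complexes are not closed under induced subcomplexes

The complex whose faces are the independent sets of the Groetzsch graph is an induced subcomplex of the
canonical join complex of a finite semidistributive lattice, but it is not itself the canonical join
complex of a finite semidistributive lattice: for a finite semidistributive lattice the graph of the
pairs of join-irreducibles that are not faces is 3-colourable as soon as it has no triangle.
-/

set_option autoImplicit false

namespace Pool.Agent.Results.MP_b1aa48_co.NotClosed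

open Finset Order

section Defs

/-- The join-semidistributive law. -/
def JoinSD (L : Type*) [Lattice L] : Prop :=
  ∀ x y z : L, x ⊔ y = x ⊔ z → x ⊔ (y ⊓ z) = x ⊔ y

/-- The meet-semidistributive law. -/
def MeetSD (L : Type*) [Lattice L] : Prop :=
  ∀ x y z : L, x ⊓ y = x ⊓ z → x ⊓ (y ⊔ z) = x ⊓ y

/-- `A` is the canonical join representation of `w`: its join is `w`, no proper subset has join `w`,
and `A` refines every finite set with join `w`. -/
def IsCJR {L : Type*} [Lattice L] [OrderBot L] (w : L) (A : Finset L) : Prop :=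
  A.sup id = w ∧ (∀ B : Finset L, B ⊂ A → B.sup id ≠ w) ∧
    ∀ B : Finset L, B.sup id = w → ∀ a ∈ A, ∃ b ∈ B, a ≤ b

/-- The join-irreducible elements: the vertices of the canonical join complex. -/
abbrev JI (L : Type*) [Lattice L] : Type _ := {j : L // SupIrred j}

/-- The faces of the canonical join complex: the sets of join-irreducible elements that are the
canonical join representation of some element. -/
def IsFace (L : Type*) [Lattice L] [OrderBot L] (F : Finset (JI L)) : Prop :=
  ∃ w : L, IsCJR w (F.map (Function.Embedding.subtype _))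

end Defs

/-! ### The arrow relation in a finite semidistributive lattice -/

section General

variable {L : Type*} [Lattice L] [OrderBot L] [Fintype L]

open Classical in
/-- The join of all elements strictly below `y`. -/
noncomputable def star (y : L) : L := (univ.filter (· < y)).sup id

theorem le_star {s y : L} (h : s < y) : s ≤ star y := by
  classical
  unfold star
  exact Finset.le_sup (f := id) (by simpa using h)

theorem star_le (y : L) : star y ≤ y := by
  classical
  unfold star
  refine Finset.sup_le ?_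
  intro b hb
  simp only [mem_filter, mem_univ, true_and] at hb
  exact hb.le

theorem star_le_of {y t : L} (h : ∀ s, s < y → s ≤ t) : star y ≤ t := by
  classical
  unfold star
  refine Finset.sup_le ?_
  intro b hb
  simp only [mem_filter, mem_univ, true_and] at hb
  exact h b hb

theorem star_lt {y : L} (hy : SupIrred y) : star y < y := by
  classical
  refine lt_of_le_of_ne (star_le y) ?_
  intro h
  unfold star at h
  obtain ⟨i, hi, h2⟩ := hy.finset_sup_eq h
  simp only [mem_filter, mem_univ, true_and, id] at hi h2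
  exact (ne_of_lt hi) h2

/-- There is an arrow from `x` to `y`: `y` is below `x ⊔ y_*`. -/
def Arr (x y : L) : Prop := y ≤ x ⊔ star y

open Classical in
/-- The largest element above `y_*` and not above `y`. -/
noncomputable def kap (y : L) : L := (univ.filter (fun t => ¬ y ≤ star y ⊔ t)).sup id

theorem kap_spec (hM : MeetSD L) {y : L} (hy : SupIrred y) : ¬ y ≤ star y ⊔ kap y := by
  classical
  unfold kap
  refine Finset.sup_induction (p := fun t => ¬ y ≤ star y ⊔ t) ?_ ?_ ?_
  · simp only [sup_bot_eq]
    exact not_le_of_gt (star_lt hy)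
  · intro a ha b hb hab
    have key : ∀ t : L, ¬ y ≤ star y ⊔ t → y ⊓ (star y ⊔ t) = star y := by
      intro t ht
      apply le_antisymm
      · apply le_star
        exact lt_of_le_of_ne inf_le_left (fun h => ht (inf_eq_left.mp h))
      · exact le_inf (star_le y) le_sup_left
    have h1 := hM y (star y ⊔ a) (star y ⊔ b) ((key a ha).trans (key b hb).symm)
    rw [key a ha] at h1
    have h2 : star y ⊔ (a ⊔ b) = (star y ⊔ a) ⊔ (star y ⊔ b) := by
      rw [sup_sup_sup_comm, sup_idem]
    rw [h2] at hab
    rw [inf_eq_left.mpr hab] at h1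
    exact absurd h1 (ne_of_gt (star_lt hy))
  · intro b hb
    simpa using hb

theorem le_kap {y t : L} (h : ¬ y ≤ star y ⊔ t) : t ≤ kap y := by
  classical
  unfold kap
  exact Finset.le_sup (f := id) (by simpa using h)

theorem star_le_kap {y : L} (hy : SupIrred y) : star y ≤ kap y := by
  apply le_kap
  rw [sup_idem]
  exact not_le_of_gt (star_lt hy)

theorem not_le_kap (hM : MeetSD L) {y : L} (hy : SupIrred y) : ¬ y ≤ kap y := fun h =>
  kap_spec hM hy (h.trans le_sup_right)

theorem arr_iff (hM : MeetSD L) {x y : L} (hy : SupIrred y) : Arr x y ↔ ¬ x ≤ kap y := by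
  constructor
  · intro h hx
    exact not_le_kap hM hy (h.trans (sup_le hx (star_le_kap hy)))
  · intro h
    unfold Arr
    by_contra h2
    apply h
    apply le_kap
    rwa [sup_comm]

theorem arr_self (x : L) : Arr x x := le_sup_left

theorem arr_of_le {x y : L} (h : y ≤ x) : Arr x y := h.trans le_sup_left

omit [Fintype L] in
/-- Join-semidistributivity along a finite join. -/
theorem jsd_ind (hJ : JoinSD L) (p x : L) (B : Finset L) (h : p ⊔ B.sup id = p ⊔ x)
    (hB : ∀ b ∈ B, b ⊓ x ≤ p) : p ⊔ x = p := by
  classical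
  induction B using Finset.induction_on with
  | empty => simpa using h.symm
  | insert b B hb ih =>
    apply ih
    · rw [Finset.sup_insert, id] at h
      set q := p ⊔ B.sup id with hq
      have h1 : q ⊔ b = p ⊔ x := by
        rw [← h, hq, sup_assoc, sup_comm (B.sup id) b]
      have h2 : q ⊔ x = p ⊔ x := by
        apply le_antisymm
        · refine sup_le ?_ le_sup_right
          rw [← h1]
          exact le_sup_left
        · exact sup_le_sup_right (hq ▸ le_sup_left) x
      have h3 := hJ q b x (h1.trans h2.symm)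
      have h4 : b ⊓ x ≤ q := (hB b (mem_insert_self b B)).trans (hq ▸ le_sup_left)
      rw [sup_eq_left.mpr h4, h1] at h3
      exact h3
    · intro c hc
      exact hB c (mem_insert_of_mem hc)

theorem not_le_of_not_arr {x y : L} (h : ¬ Arr x y) : ¬ y ≤ x := fun h2 => h (arr_of_le h2)

open Classical in
/-- Two distinct join-irreducible elements form a face when there is no arrow between them. -/
theorem cjr_of_not_arr (hJ : JoinSD L) {x y : L} (hxy : ¬ Arr x y) (hyx : ¬ Arr y x) :
    IsCJR (x ⊔ y) ({x, y} : Finset L) := by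
  have half : ∀ x y : L, ¬ Arr x y → ¬ Arr y x → ∀ B : Finset L, B.sup id = x ⊔ y →
      ∃ b ∈ B, x ≤ b := by
    intro x y hxy hyx B hB
    by_contra hcon
    push Not at hcon
    have hp : (star x ⊔ y) ⊔ x = star x ⊔ y := by
      apply jsd_ind hJ (star x ⊔ y) x B
      · rw [hB]
        apply le_antisymm
        · exact sup_le le_sup_left (sup_le le_sup_right (le_sup_right.trans le_sup_left))
        · exact sup_le le_sup_left (le_sup_left.trans le_sup_right)
      · intro b hb
        refine (le_star ?_).trans le_sup_left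
        refine lt_of_le_of_ne inf_le_right ?_
        intro h
        exact hcon b hb (inf_eq_right.mp h)
    apply hyx
    unfold Arr
    rw [sup_comm y]
    exact sup_eq_left.mp hp
  refine ⟨by simp, ?_, ?_⟩
  · intro B hB hs
    obtain ⟨c, hc, hcB⟩ := Finset.exists_of_ssubset hB
    have hsub := hB.1
    simp only [mem_insert, mem_singleton] at hc
    rcases hc with rfl | rfl
    · have : B.sup id ≤ y := by
        apply Finset.sup_le
        intro b hb
        have := hsub hb
        simp only [mem_insert, mem_singleton] at this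
        rcases this with rfl | rfl
        · exact absurd hb hcB
        · exact le_rfl
      rw [hs] at this
      exact not_le_of_not_arr hyx (le_sup_left.trans this)
    · have : B.sup id ≤ x := by
        apply Finset.sup_le
        intro b hb
        have := hsub hb
        simp only [mem_insert, mem_singleton] at this
        rcases this with rfl | rfl
        · exact le_rfl
        · exact absurd hb hcB
      rw [hs] at this
      exact not_le_of_not_arr hxy (le_sup_right.trans this)
  · intro B hB a ha
    simp only [mem_insert, mem_singleton] at ha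
    rcases ha with rfl | rfl
    · exact half _ _ hxy hyx B hB
    · exact half _ _ hyx hxy B (hB.trans (sup_comm _ _))

open Classical in
/-- Two distinct join-irreducible elements with an arrow between them do not form a face. -/
theorem not_cjr_of_arr {x y w : L} (hne : x ≠ y) (hy : SupIrred y) (h : Arr x y) :
    ¬ IsCJR w ({x, y} : Finset L) := by
  rintro ⟨hw, hirr, href⟩
  have hw' : x ⊔ y = w := by simpa using hw
  have h1 : ({x, star y} : Finset L).sup id = w := by
    rw [← hw']
    simp only [sup_insert, id_eq, sup_singleton]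
    apply le_antisymm
    · exact sup_le_sup_left (star_le y) x
    · exact sup_le le_sup_left h
  obtain ⟨b, hb, hyb⟩ := href _ h1 y (by simp)
  simp only [mem_insert, mem_singleton] at hb
  rcases hb with rfl | rfl
  · have h2 : ({b} : Finset L).sup id = w := by
      rw [← hw']
      simp [hyb]
    refine hirr {b} ?_ h2
    rw [Finset.ssubset_iff_of_subset (by simp)]
    exact ⟨y, by simp, by simpa using hne.symm⟩
  · exact not_le_of_gt (star_lt hy) hyb

open Classical in
theorem face_pair_iff (hJ : JoinSD L) (x y : JI L) (hne : x ≠ y) :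
    IsFace L {x, y} ↔ ¬ (Arr x.1 y.1 ∨ Arr y.1 x.1) := by
  have hne' : x.1 ≠ y.1 := fun h => hne (Subtype.ext h)
  have hmap : (({x, y} : Finset (JI L)).map (Function.Embedding.subtype _)) = {x.1, y.1} := by
    simp [Finset.map_insert]
  unfold IsFace
  rw [hmap]
  constructor
  · rintro ⟨w, hw⟩ (h | h)
    · exact not_cjr_of_arr hne' y.2 h hw
    · rw [Finset.pair_comm] at hw
      exact not_cjr_of_arr hne'.symm x.2 h hw
  · intro h
    push Not at h
    exact ⟨_, cjr_of_not_arr hJ h.1 h.2⟩

/-- The map `kap` is injective on the join-irreducible elements. -/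
theorem kap_inj (hJ : JoinSD L) (hM : MeetSD L) {y z : L} (hy : SupIrred y) (hz : SupIrred z)
    (h : kap y = kap z) : y = z := by
  have aux : ∀ a b : L, SupIrred a → SupIrred b → kap a = kap b → a ≤ kap a ⊔ b := by
    intro a b ha hb hab
    by_contra hcon
    have h1 : kap a ⊔ b ≤ kap a := by
      apply le_kap
      rw [sup_eq_right.mpr ((star_le_kap ha).trans le_sup_left)]
      exact hcon
    rw [hab] at h1
    exact not_le_kap hM hb (le_sup_right.trans h1)
  have h1 : y ≤ kap y ⊔ z := aux y z hy hz h
  have h2 : z ≤ kap y ⊔ y := by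
    rw [h]
    exact aux z y hz hy h.symm
  have h3 : kap y ⊔ y = kap y ⊔ z :=
    le_antisymm (sup_le le_sup_left h1) (sup_le le_sup_left h2)
  have h4 := hJ _ _ _ h3
  by_contra hne
  have h5 : y ⊓ z ≤ kap y := by
    by_cases h6 : y ⊓ z = y
    · have h7 : y < z := lt_of_le_of_ne (inf_eq_left.mp h6) hne
      rw [h6, h]
      exact (le_star h7).trans (star_le_kap hz)
    · exact (le_star (lt_of_le_of_ne inf_le_left h6)).trans (star_le_kap hy)
  rw [sup_eq_left.mpr h5] at h4
  exact not_le_kap hM hy (h4 ▸ le_sup_right)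

/-- Below a source of an arrow there is a join-irreducible with a larger value of `kap`. -/
theorem exists_factor {x y : L} (h : ¬ x ≤ kap y) :
    ∃ z : L, SupIrred z ∧ z ≤ x ∧ ¬ z ≤ kap y ∧ kap y ≤ kap z := by
  classical
  obtain ⟨z, hz, hmin⟩ := Finset.exists_minimal (s := univ.filter (fun t : L => t ≤ x ∧ ¬ t ≤ kap y))
    ⟨x, by simp [h]⟩
  simp only [mem_filter, mem_univ, true_and] at hz hmin
  have hlt : ∀ t, t < z → t ≤ kap y := by
    intro t ht
    by_contra hcon
    exact not_le_of_gt ht (hmin ⟨ht.le.trans hz.1, hcon⟩ ht.le)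
  refine ⟨z, ⟨?_, ?_⟩, hz.1, hz.2, ?_⟩
  · intro hmin'
    have := hmin'.eq_bot
    exact hz.2 (this ▸ bot_le)
  · intro b c hbc
    by_contra hcon
    push Not at hcon
    have hb : b < z := lt_of_le_of_ne (hbc ▸ le_sup_left) hcon.1
    have hc : c < z := lt_of_le_of_ne (hbc ▸ le_sup_right) hcon.2
    exact hz.2 (hbc ▸ sup_le (hlt b hb) (hlt c hc))
  · apply le_kap
    rw [sup_eq_right.mpr (star_le_of hlt)]
    exact hz.2

/-- The pairs of join-irreducible elements which are joined by an arrow. -/
def CAdj (x y : JI L) : Prop := x ≠ y ∧ (Arr x.1 y.1 ∨ Arr y.1 x.1)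

theorem three_colourable (hJ : JoinSD L) (hM : MeetSD L)
    (htri : ∀ x y z : JI L, CAdj x y → CAdj y z → CAdj x z → False) :
    ∃ c : JI L → Fin 3, ∀ x y, CAdj x y → c x ≠ c y := by
  classical
  -- an arrow between distinct elements is of one of two types
  have types : ∀ x y : JI L, x ≠ y → Arr x.1 y.1 → kap y.1 ≤ kap x.1 ∨ y.1 ≤ x.1 := by
    intro x y hne h
    obtain ⟨z, hz, hzx, hzy, hk⟩ := exists_factor ((arr_iff hM y.2).mp h)
    by_cases h1 : z = x.1
    · left
      rw [← h1]
      exact hk
    by_cases h2 : z = y.1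
    · right
      rw [← h2]
      exact hzx
    exfalso
    refine htri x ⟨z, hz⟩ y ⟨?_, Or.inl (arr_of_le hzx)⟩ ⟨?_, Or.inl ((arr_iff hM y.2).mpr hzy)⟩
      ⟨hne, Or.inl h⟩
    · intro h3
      exact h1 (congrArg Subtype.val h3).symm
    · intro h3
      exact h2 (congrArg Subtype.val h3)
  have nodouble : ∀ x y : JI L, x ≠ y → Arr x.1 y.1 → Arr y.1 x.1 → False := by
    intro x y hne h1 h2
    have h1' := (arr_iff hM y.2).mp h1
    have h2' := (arr_iff hM x.2).mp h2
    have hne' : x.1 ≠ y.1 := fun h => hne (Subtype.ext h)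
    rcases types x y hne h1 with h3 | h3
    · rcases types y x hne.symm h2 with h4 | h4
      · exact hne' (kap_inj hJ hM x.2 y.2 (le_antisymm h4 h3))
      · exact h1' ((le_star (lt_of_le_of_ne h4 hne')).trans (star_le_kap y.2))
    · exact h2' ((le_star (lt_of_le_of_ne h3 hne'.symm)).trans (star_le_kap x.2))
  have nowalk : ∀ a b c d : JI L, a ≠ b → b ≠ c → c ≠ d → Arr a.1 b.1 → Arr b.1 c.1 → Arr c.1 d.1 →
      False := by
    intro a b c d hab hbc hcd h1 h2 h3
    rcases types b c hbc h2 with h4 | h4
    · have h5 : Arr a.1 c.1 := by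
        rw [arr_iff hM c.2]
        intro h6
        exact (arr_iff hM b.2).mp h1 (h6.trans h4)
      by_cases hac : a = c
      · subst hac
        exact nodouble a b hab h1 h2
      · exact htri a b c ⟨hab, Or.inl h1⟩ ⟨hbc, Or.inl h2⟩ ⟨hac, Or.inl h5⟩
    · have h5 : Arr b.1 d.1 := by
        rw [arr_iff hM d.2]
        intro h6
        exact (arr_iff hM d.2).mp h3 (h4.trans h6)
      by_cases hbd : b = d
      · subst hbd
        exact nodouble b c hbc h2 h3
      · exact htri b c d ⟨hbc, Or.inl h2⟩ ⟨hcd, Or.inl h3⟩ ⟨hbd, Or.inl h5⟩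
  let I1 : JI L → Prop := fun x => ∃ w, w ≠ x ∧ Arr w.1 x.1
  let I2 : JI L → Prop := fun x => ∃ w, w ≠ x ∧ Arr w.1 x.1 ∧ I1 w
  refine ⟨fun x => if I2 x then 2 else if I1 x then 1 else 0, ?_⟩
  have main : ∀ x y : JI L, x ≠ y → Arr x.1 y.1 →
      (if I2 x then (2 : Fin 3) else if I1 x then 1 else 0) ≠
      (if I2 y then (2 : Fin 3) else if I1 y then 1 else 0) := by
    intro x y hne h
    have hx2 : ¬ I2 x := by
      rintro ⟨w, hwx, hw, v, hvw, hv⟩
      exact nowalk v w x y hvw hwx hne hv hw h
    have hy1 : I1 y := ⟨x, hne, h⟩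
    rw [if_neg hx2]
    by_cases hx1 : I1 x
    · have hy2 : I2 y := ⟨x, hne, h, hx1⟩
      rw [if_pos hx1, if_pos hy2]
      decide
    · rw [if_neg hx1]
      split_ifs <;> decide
  rintro x y ⟨hne, h | h⟩
  · exact main x y hne h
  · exact (main y x hne.symm h).symm

end General

/-! ### The lattice of a factorisable relation -/

section Construction

variable {S : Type} (R : S → S → Prop)

/-- The relation whose concept lattice we use. -/
def NR : S → S → Prop := fun x y => ¬ R x y

/-- A reflexive, antisymmetric relation in which every arrow factors. -/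
structure Good : Prop where
  refl : ∀ x, R x x
  anti : ∀ x y, R x y → R y x → x = y
  fac : ∀ x y, R x y → ∃ z, (∀ u, R z u → R x u) ∧ (∀ u, R u z → R u y)

variable {R}

theorem Good.swap (h : Good R) : Good (fun x y => R y x) where
  refl := h.refl
  anti := fun x y h1 h2 => h.anti x y h2 h1
  fac := by
    intro x y hxy
    obtain ⟨z, h1, h2⟩ := h.fac y x hxy
    exact ⟨z, h2, h1⟩

/-- membership in a closed set -/
theorem mem_ext_iff (c : Concept S S (NR R)) (a : S) :
    a ∈ c.extent ↔ ∀ y, R a y → ∃ x ∈ c.extent, R x y := by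
  constructor
  · intro ha y hy
    exact ⟨a, ha, hy⟩
  · intro h
    rw [← c.lowerPolar_intent, mem_lowerPolar_iff]
    intro y hy hay
    obtain ⟨x, hx, hxy⟩ := h y hay
    rw [← c.upperPolar_extent] at hy
    exact hy hx hxy

theorem mem_sup_iff (c d : Concept S S (NR R)) (a : S) :
    a ∈ (c ⊔ d).extent ↔ ∀ y, R a y → ∃ x, (x ∈ c.extent ∨ x ∈ d.extent) ∧ R x y := by
  have hint : ∀ y, y ∈ (c ⊔ d).intent ↔ ∀ x, (x ∈ c.extent ∨ x ∈ d.extent) → ¬ R x y := by
    intro y
    rw [Concept.intent_sup, Set.mem_inter_iff]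
    constructor
    · rintro ⟨h1, h2⟩ x (hx | hx)
      · exact Concept.rel_extent_intent hx h1
      · exact Concept.rel_extent_intent hx h2
    · intro h
      rw [← c.upperPolar_extent, ← d.upperPolar_extent]
      exact ⟨fun x hx => h x (Or.inl hx), fun x hx => h x (Or.inr hx)⟩
  rw [← (c ⊔ d).lowerPolar_intent, mem_lowerPolar_iff]
  constructor
  · intro h y hy
    by_contra hcon
    push Not at hcon
    exact h ((hint y).mpr hcon) hy
  · intro h y hy hay
    obtain ⟨x, hx, hxy⟩ := h y hay
    exact (hint y).mp hy x hx hxy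

/-- The closure of a point. -/
def T (R : S → S → Prop) (a : S) : Concept S S (NR R) := Concept.ofObject (NR R) a

theorem mem_T (a x : S) : x ∈ (T R a).extent ↔ ∀ y, R x y → R a y := by
  unfold T
  rw [Concept.extent_ofObjects, mem_lowerPolar_iff]
  simp only [mem_upperPolar_singleton, NR]
  constructor
  · intro h y hy
    by_contra hcon
    exact h hcon hy
  · intro h y hy hxy
    exact hy (h y hxy)

theorem T_le (a : S) (c : Concept S S (NR R)) : T R a ≤ c ↔ a ∈ c.extent := by
  unfold T
  rw [Concept.ofObjects_le_iff, Set.singleton_subset_iff]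

theorem self_mem_T (a : S) : a ∈ (T R a).extent := (T_le a _).mp le_rfl

theorem Good.T_anti (h : Good R) {a b : S} (h1 : b ∈ (T R a).extent) (h2 : a ∈ (T R b).extent) :
    a = b :=
  h.anti a b ((mem_T a b).mp h1 b (h.refl b)) ((mem_T b a).mp h2 a (h.refl a))

theorem Good.T_inj (h : Good R) : Function.Injective (T R) := by
  intro a b hab
  apply h.T_anti
  · rw [hab]; exact self_mem_T b
  · rw [← hab]; exact self_mem_T a

/-- An element of the closure of `a` other than `a` has no arrow to `a`. -/
theorem Good.not_rel (h : Good R) {a x : S} (hx : x ∈ (T R a).extent) (hne : x ≠ a) : ¬ R x a := by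
  intro h1
  exact hne (h.anti x a h1 ((mem_T a x).mp hx x (h.refl x)))

/-- The key property: a closed set that contains the closure of `a` except for `a` itself contains
nothing with an arrow to `a`. -/
theorem Good.key (h : Good R) (c : Concept S S (NR R)) (a : S)
    (hT : ∀ x ∈ (T R a).extent, x ≠ a → x ∈ c.extent) (ha : a ∉ c.extent) :
    ∀ x ∈ c.extent, ¬ R x a := by
  intro x hx hxa
  rw [mem_ext_iff] at ha
  push Not at ha
  obtain ⟨y, hay, hy⟩ := ha
  obtain ⟨u, hu1, hu2⟩ := h.fac a y hay
  by_cases hua : u = a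
  · subst hua
    exact hy x hx (hu2 x hxa)
  · exact hy u (hT u ((mem_T a u).mpr hu1) hua) (hu2 u (h.refl u))

theorem Good.meetSD [Finite S] (h : Good R) : MeetSD (Concept S S (NR R)) := by
  classical
  intro X Y Z hXYZ
  apply le_antisymm
  · by_contra hcon
    have hne : ∃ a, a ∈ (X ⊓ (Y ⊔ Z)).extent ∧ a ∉ (X ⊓ Y).extent := by
      by_contra h2
      push Not at h2
      exact hcon (fun a ha => h2 a ha)
    have hwf : WellFounded (fun a b : S => T R a < T R b) := by
      have : Finite (Concept S S (NR R)) := Finite.of_injective _ Concept.extent_injective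
      exact InvImage.wf (T R) (wellFounded_lt)
    obtain ⟨a, ha, hmin⟩ := hwf.has_min {a | a ∈ (X ⊓ (Y ⊔ Z)).extent ∧ a ∉ (X ⊓ Y).extent} hne
    simp only [Set.mem_ofPred_eq] at ha hmin
    rw [Concept.extent_inf, Set.mem_inter_iff, mem_sup_iff] at ha
    obtain ⟨⟨haX, haYZ⟩, haXY⟩ := ha
    have hT : ∀ x ∈ (T R a).extent, x ≠ a → x ∈ (X ⊓ Y).extent := by
      intro x hx hxa
      by_contra hcon2
      refine hmin x ⟨?_, hcon2⟩ ?_
      · have h1 : T R a ≤ X ⊓ (Y ⊔ Z) := by
          rw [T_le, Concept.extent_inf, Set.mem_inter_iff, mem_sup_iff]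
          exact ⟨haX, haYZ⟩
        exact h1 hx
      · refine lt_of_le_of_ne ((T_le x _).mpr hx) ?_
        intro h3
        exact hxa (h.T_inj h3)
    have haY : a ∉ Y.extent := by
      intro h4
      exact haXY (by rw [Concept.extent_inf]; exact ⟨haX, h4⟩)
    have haZ : a ∉ Z.extent := by
      intro h4
      rw [hXYZ] at haXY
      exact haXY (by rw [Concept.extent_inf]; exact ⟨haX, h4⟩)
    have hTY : ∀ x ∈ (T R a).extent, x ≠ a → x ∈ Y.extent := by
      intro x hx hxa
      have := hT x hx hxa
      rw [Concept.extent_inf] at this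
      exact this.2
    have hTZ : ∀ x ∈ (T R a).extent, x ≠ a → x ∈ Z.extent := by
      intro x hx hxa
      have := hT x hx hxa
      rw [hXYZ, Concept.extent_inf] at this
      exact this.2
    obtain ⟨x, hx, hxa⟩ := haYZ a (h.refl a)
    rcases hx with hx | hx
    · exact h.key Y a hTY haY x hx hxa
    · exact h.key Z a hTZ haZ x hx hxa
  · exact inf_le_inf_left X le_sup_left

theorem Good.joinSD [Finite S] (h : Good R) : JoinSD (Concept S S (NR R)) := by
  have hM : MeetSD (Concept S S (NR (fun x y => R y x))) := h.swap.meetSD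
  let e : (Concept S S (NR R))ᵒᵈ ≃o Concept S S (NR (fun x y => R y x)) := Concept.swapEquiv
  intro x y z hxyz
  have h1 := hM (e (OrderDual.toDual x)) (e (OrderDual.toDual y)) (e (OrderDual.toDual z)) (by
    rw [← map_inf e, ← map_inf e, ← _root_.toDual_sup, ← _root_.toDual_sup, hxyz])
  rw [← map_sup e, ← map_inf e, ← map_inf e, ← _root_.toDual_inf, ← _root_.toDual_sup,
    ← _root_.toDual_sup] at h1
  exact OrderDual.toDual.injective (e.injective h1)

theorem Good.T_irr (h : Good R) (a : S) : SupIrred (T R a) := by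
  constructor
  · intro hmin
    have h1 : T R a = ⊥ := hmin.eq_bot
    have h2 : a ∈ (⊥ : Concept S S (NR R)).extent := h1 ▸ self_mem_T a
    rw [Concept.extent_bot, mem_lowerPolar_iff] at h2
    exact h2 (Set.mem_univ a) (h.refl a)
  · intro b c hbc
    have h1 : a ∈ (b ⊔ c).extent := hbc ▸ self_mem_T a
    rw [mem_sup_iff] at h1
    obtain ⟨x, hx, hxa⟩ := h1 a (h.refl a)
    have hxT : x ∈ (T R a).extent := by
      rw [← hbc]
      rcases hx with hx | hx
      · exact (le_sup_left : b ≤ b ⊔ c) hx
      · exact (le_sup_right : c ≤ b ⊔ c) hx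
    have hxa' : x = a := by
      by_contra hne
      exact h.not_rel hxT hne hxa
    subst hxa'
    rcases hx with hx | hx
    · left
      exact le_antisymm (hbc ▸ le_sup_left) ((T_le x b).mpr hx)
    · right
      exact le_antisymm (hbc ▸ le_sup_right) ((T_le x c).mpr hx)

/-- The arrows of the lattice between the closures of points are the arrows of the relation. -/
theorem Good.arr_T [Finite S] [Fintype (Concept S S (NR R))] (h : Good R) (u v : S) :
    Arr (T R u) (T R v) ↔ R u v := by
  unfold Arr
  rw [T_le, mem_sup_iff]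
  constructor
  · intro h1
    obtain ⟨x, hx, hxv⟩ := h1 v (h.refl v)
    rcases hx with hx | hx
    · exact (mem_T u x).mp hx v hxv
    · exfalso
      have h2 : x ∈ (T R v).extent := star_le (T R v) hx
      have h3 : x = v := by
        by_contra hne
        exact h.not_rel h2 hne hxv
      subst h3
      exact not_le_of_gt (star_lt (h.T_irr x)) ((T_le x _).mpr hx)
  · intro huv y hvy
    obtain ⟨z, hz1, hz2⟩ := h.fac v y hvy
    by_cases hzv : z = v
    · subst hzv
      exact ⟨u, Or.inl (self_mem_T u), hz2 u huv⟩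
    · refine ⟨z, Or.inr ?_, hz2 z (h.refl z)⟩
      have h1 : T R z < T R v := by
        refine lt_of_le_of_ne ((T_le z _).mpr ((mem_T v z).mpr hz1)) ?_
        intro h3
        exact hzv (h.T_inj h3)
      exact (T_le z _).mp (le_star h1)

end Construction

/-! ### The relation of a graph, and the Groetzsch graph -/

section Graph

variable {V : Type} [LinearOrder V] (adj : V → V → Prop)

/-- The arrows of a graph: its edges `x < y`. -/
abbrev Arc : Type := {p : V × V // adj p.1 p.2 ∧ p.1 < p.2}

/-- The relation: each edge `x < y` is an arrow, which factors through a new point. -/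
def GR : V ⊕ Arc adj → V ⊕ Arc adj → Prop
  | Sum.inl x, Sum.inl y => x = y ∨ (adj x y ∧ x < y)
  | Sum.inl x, Sum.inr p => p.1.1 = x
  | Sum.inr p, Sum.inl y => p.1.2 = y
  | Sum.inr p, Sum.inr q => p = q

theorem good_GR : Good (GR adj) where
  refl := by
    rintro (x | p)
    · exact Or.inl rfl
    · exact rfl
  anti := by
    rintro (x | p) (y | q) h1 h2
    · rcases h1 with rfl | h1
      · rfl
      · rcases h2 with rfl | h2
        · rfl
        · exact absurd (h1.2.trans h2.2) (lt_irrefl _)
    · have h1 : q.1.1 = x := h1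
      have h2 : q.1.2 = x := h2
      exact absurd (h1.trans h2.symm) (ne_of_lt q.2.2)
    · have h1 : p.1.2 = y := h1
      have h2 : p.1.1 = y := h2
      exact absurd (h2.trans h1.symm) (ne_of_lt p.2.2)
    · have h1 : p = q := h1
      rw [h1]
  fac := by
    have out : ∀ (p : Arc adj) (u : V ⊕ Arc adj), GR adj (Sum.inr p) u →
        GR adj (Sum.inl p.1.1) u := by
      rintro p (y | q) hu
      · have hu : p.1.2 = y := hu
        subst hu
        exact Or.inr p.2
      · have hu : p = q := hu
        subst hu
        exact (rfl : p.1.1 = p.1.1)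
    have inn : ∀ (p : Arc adj) (u : V ⊕ Arc adj), GR adj u (Sum.inr p) →
        GR adj u (Sum.inl p.1.2) := by
      rintro p (x | q) hu
      · have hu : p.1.1 = x := hu
        subst hu
        exact Or.inr p.2
      · have hu : q = p := hu
        subst hu
        exact (rfl : q.1.2 = q.1.2)
    rintro (x | p) (y | q) hxy
    · rcases hxy with rfl | hxy
      · exact ⟨Sum.inl x, fun u hu => hu, fun u hu => hu⟩
      · exact ⟨Sum.inr ⟨(x, y), hxy⟩, fun u hu => out ⟨(x, y), hxy⟩ u hu,
          fun u hu => inn ⟨(x, y), hxy⟩ u hu⟩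
    · have hxy : q.1.1 = x := hxy
      subst hxy
      exact ⟨Sum.inr q, fun u hu => out q u hu, fun u hu => hu⟩
    · have hxy : p.1.2 = y := hxy
      subst hxy
      exact ⟨Sum.inr p, fun u hu => hu, fun u hu => inn p u hu⟩
    · have hxy : p = q := hxy
      subst hxy
      exact ⟨Sum.inr p, fun u hu => hu, fun u hu => hu⟩

end Graph

/-- The edges of the Groetzsch graph: the 5-cycle `0 1 2 3 4`, the vertex `5 + i` joined to the two
neighbours of `i`, and the vertex `10` joined to `5, …, 9`. -/
def edges : List (Fin 11 × Fin 11) :=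
  [(0, 1), (1, 2), (2, 3), (3, 4), (0, 4),
   (4, 5), (1, 5), (0, 6), (2, 6), (1, 7), (3, 7), (2, 8), (4, 8), (3, 9), (0, 9),
   (5, 10), (6, 10), (7, 10), (8, 10), (9, 10)]

/-- Adjacency in the Groetzsch graph. -/
def gadj (x y : Fin 11) : Prop := (x, y) ∈ edges ∨ (y, x) ∈ edges

instance : DecidableRel gadj := fun x y => by unfold gadj; infer_instance

theorem gadj_symm (x y : Fin 11) : gadj x y → gadj y x := Or.symm

theorem gadj_irrefl : ∀ x : Fin 11, ¬ gadj x x := by decide +kernel

theorem gadj_triangle : ∀ x y z : Fin 11, gadj x y → gadj y z → gadj x z → False := by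
  decide +kernel

set_option synthInstance.maxSize 4000 in
set_option synthInstance.maxHeartbeats 4000000 in
theorem no_col : ∀ a0 a1 : Fin 3, a0 ≠ a1 → ∀ a2 : Fin 3, a1 ≠ a2 → ∀ a3 : Fin 3, a2 ≠ a3 →
    ∀ a4 : Fin 3, a3 ≠ a4 → a0 ≠ a4 → ∀ a5 : Fin 3, a4 ≠ a5 → a1 ≠ a5 →
    ∀ a6 : Fin 3, a0 ≠ a6 → a2 ≠ a6 → ∀ a7 : Fin 3, a1 ≠ a7 → a3 ≠ a7 →
    ∀ a8 : Fin 3, a2 ≠ a8 → a4 ≠ a8 → ∀ a9 : Fin 3, a3 ≠ a9 → a0 ≠ a9 →
    ∀ a10 : Fin 3, a5 ≠ a10 → a6 ≠ a10 → a7 ≠ a10 → a8 ≠ a10 → a9 ≠ a10 → False := by
  decide +kernel

/-- The Groetzsch graph is not 3-colourable. -/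
theorem gadj_not_colourable (c : Fin 11 → Fin 3) (hc : ∀ x y, gadj x y → c x ≠ c y) : False := by
  refine no_col (c 0) (c 1) (hc _ _ ?_) (c 2) (hc _ _ ?_) (c 3) (hc _ _ ?_)
    (c 4) (hc _ _ ?_) (hc _ _ ?_) (c 5) (hc _ _ ?_) (hc _ _ ?_)
    (c 6) (hc _ _ ?_) (hc _ _ ?_) (c 7) (hc _ _ ?_) (hc _ _ ?_)
    (c 8) (hc _ _ ?_) (hc _ _ ?_) (c 9) (hc _ _ ?_) (hc _ _ ?_)
    (c 10) (hc _ _ ?_) (hc _ _ ?_) (hc _ _ ?_) (hc _ _ ?_) (hc _ _ ?_) <;> decide

/-- The semidistributive lattice of the Groetzsch graph. -/
abbrev Lat : Type := Concept (Fin 11 ⊕ Arc gadj) (Fin 11 ⊕ Arc gadj) (NR (GR gadj))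

instance : Finite (Arc gadj) := by unfold Arc; infer_instance

instance : Finite Lat := Finite.of_injective _ Concept.extent_injective

/-- The vertex of the canonical join complex of `Lat` that belongs to `u`. -/
def vert (u : Fin 11) : JI Lat := ⟨T (GR gadj) (Sum.inl u), (good_GR gadj).T_irr _⟩

theorem vert_inj : Function.Injective vert := by
  intro u v h
  have h1 := congrArg Subtype.val h
  exact Sum.inl_injective ((good_GR gadj).T_inj h1)

open Classical in
theorem vert_face (u v : Fin 11) (hne : u ≠ v) : IsFace Lat {vert u, vert v} ↔ ¬ gadj u v := by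
  have : Fintype Lat := Fintype.ofFinite _
  rw [face_pair_iff (good_GR gadj).joinSD _ _ (fun h => hne (vert_inj h))]
  have h1 : Arr (vert u).1 (vert v).1 ↔ GR gadj (Sum.inl u) (Sum.inl v) :=
    (good_GR gadj).arr_T (Sum.inl u) (Sum.inl v)
  have h2 : Arr (vert v).1 (vert u).1 ↔ GR gadj (Sum.inl v) (Sum.inl u) :=
    (good_GR gadj).arr_T (Sum.inl v) (Sum.inl u)
  have h3 : GR gadj (Sum.inl u) (Sum.inl v) ↔ u = v ∨ (gadj u v ∧ u < v) := Iff.rfl
  have h4 : GR gadj (Sum.inl v) (Sum.inl u) ↔ v = u ∨ (gadj v u ∧ v < u) := Iff.rfl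
  rw [h1, h2, h3, h4]
  constructor
  · intro h hadj
    rcases lt_or_gt_of_ne hne with h5 | h5
    · exact h (Or.inl (Or.inr ⟨hadj, h5⟩))
    · exact h (Or.inr (Or.inr ⟨gadj_symm _ _ hadj, h5⟩))
  · rintro h ((h5 | h5) | (h5 | h5))
    · exact hne h5
    · exact h h5.1
    · exact hne h5.symm
    · exact h (gadj_symm _ _ h5.1)

/-- **Canonical join complexes of finite semidistributive lattices are not closed under taking
induced subcomplexes.** There are a finite semidistributive lattice `L` and a set `W` of
join-irreducible elements of `L` such that the subcomplex of the canonical join complex of `L` induced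
on `W` is not isomorphic to the canonical join complex of any finite semidistributive lattice. -/
theorem result :
    ∃ (L : Type) (_ : Lattice L) (_ : OrderBot L) (_ : Finite L) (W : Set (JI L)),
      JoinSD L ∧ MeetSD L ∧
      ∀ (L' : Type*) [Lattice L'] [OrderBot L'] [Finite L'], JoinSD L' → MeetSD L' →
        ¬ ∃ f : W ≃ JI L', ∀ F : Finset W,
          IsFace L (F.map (Function.Embedding.subtype _)) ↔ IsFace L' (F.map f.toEmbedding) := by
  classical
  refine ⟨Lat, inferInstance, inferInstance, inferInstance, Set.range vert,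
    (good_GR gadj).joinSD, (good_GR gadj).meetSD, ?_⟩
  intro L' _ _ _ hJ hM
  have : Fintype L' := Fintype.ofFinite _
  rintro ⟨f, hf⟩
  let g : Fin 11 ≃ Set.range vert := Equiv.ofInjective vert vert_inj
  let h : Fin 11 ≃ JI L' := g.trans f
  have key : ∀ u v : Fin 11, gadj u v ↔ CAdj (h u) (h v) := by
    intro u v
    by_cases huv : u = v
    · subst huv
      constructor
      · intro h1
        exact absurd h1 (gadj_irrefl u)
      · intro h1
        exact absurd rfl h1.1
    · have h1 := vert_face u v huv
      have h2 := face_pair_iff hJ (h u) (h v) (fun h3 => huv (h.injective h3))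
      have h3 := hf {g u, g v}
      have h4 : ({g u, g v} : Finset (Set.range vert)).map (Function.Embedding.subtype _) =
          {vert u, vert v} := by
        simp [Finset.map_insert, g]
      have h5 : ({g u, g v} : Finset (Set.range vert)).map f.toEmbedding = {h u, h v} := by
        simp [Finset.map_insert, h]
      rw [h4, h5, h1, h2] at h3
      have h6 := not_iff_not.mp h3
      rw [h6]
      unfold CAdj
      constructor
      · intro h7
        exact ⟨fun h8 => huv (h.injective h8), h7⟩
      · intro h7
        exact h7.2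
  obtain ⟨c, hc⟩ := three_colourable hJ hM (by
    intro x y z hxy hyz hxz
    obtain ⟨u, rfl⟩ := h.surjective x
    obtain ⟨v, rfl⟩ := h.surjective y
    obtain ⟨w, rfl⟩ := h.surjective z
    exact gadj_triangle u v w ((key _ _).mpr hxy) ((key _ _).mpr hyz) ((key _ _).mpr hxz))
  exact gadj_not_colourable (fun u => c (h u)) (fun u v huv => hc _ _ ((key u v).mp huv))

end Pool.Agent.Results.MP_b1aa48_co.NotClosed
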